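import Mathlib

/-!
MP_2e66a2_lc, Q1 (full answer: yes).  There is a language over a two letter alphabet whose
characteristic series in commuting variables is rational over the semiring of natural numbers
although the characteristic series of its complement is not.

Paper proof: helper576 (notes in Pool/Agent/R576/notes_MP_2e66a2_lc.md).
-/

namespace Pool.Agent.Results.MP_2e66a2_lc.ComplementNotRational

open MvPowerSeries Finset Filter Topology

/-- The star `f^* = ∑ f^j` of a series `f` (meant for zero constant term, where `f ^ j` has no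
terms of total degree below `j`, so that the coefficient at `v` is the finite sum below). -/
noncomputable def starS {k : ℕ} (f : MvPowerSeries (Fin k) ℕ) : MvPowerSeries (Fin k) ℕ :=
  fun v => ∑ j ∈ Finset.range (v.degree + 1), coeff v (f ^ j)

/-- Rational series over `ℕ` in `k` commuting variables: the smallest family containing the
series of finite support and closed under sum, Cauchy product and star of series with zero
constant term. -/
inductive IsRat {k : ℕ} : MvPowerSeries (Fin k) ℕ → Prop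
  | fin {f : MvPowerSeries (Fin k) ℕ} (hf : {v | coeff v f ≠ 0}.Finite) : IsRat f
  | add {f g : MvPowerSeries (Fin k) ℕ} (hf : IsRat f) (hg : IsRat g) : IsRat (f + g)
  | mul {f g : MvPowerSeries (Fin k) ℕ} (hf : IsRat f) (hg : IsRat g) : IsRat (f * g)
  | star {f : MvPowerSeries (Fin k) ℕ} (hf : IsRat f) (h0 : constantCoeff f = 0) :
      IsRat (starS f)

/-- The characteristic series in commuting variables of a language over the alphabet `Fin k`:
the coefficient at `v` is the number of words of `L` with Parikh vector `v`. -/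
noncomputable def charSeries {k : ℕ} (L : Set (List (Fin k))) : MvPowerSeries (Fin k) ℕ :=
  fun v => {w : List (Fin k) | w ∈ L ∧ ∀ a, w.count a = v a}.ncard

/-! ### the star -/

section star
variable {k : ℕ}

lemma coeff_starS (f : MvPowerSeries (Fin k) ℕ) (v : Fin k →₀ ℕ) :
    coeff v (starS f) = ∑ j ∈ Finset.range (v.degree + 1), coeff v (f ^ j) := rfl

lemma pow_low {f : MvPowerSeries (Fin k) ℕ} (h0 : constantCoeff f = 0) {v : Fin k →₀ ℕ} {j : ℕ}
    (h : v.degree < j) : coeff v (f ^ j) = 0 :=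
  coeff_eq_zero_of_constantCoeff_nilpotent (m := 1) (by simpa using h0) (by omega)

lemma coeff_starS' {f : MvPowerSeries (Fin k) ℕ} (h0 : constantCoeff f = 0) {v : Fin k →₀ ℕ}
    {N : ℕ} (hN : v.degree < N) :
    coeff v (starS f) = ∑ j ∈ Finset.range N, coeff v (f ^ j) := by
  rw [coeff_starS]
  refine Finset.sum_subset (by intro x; simp only [Finset.mem_range]; omega) ?_
  intro j _ hj
  simp only [Finset.mem_range, not_lt] at hj
  exact pow_low h0 (by omega)

lemma starS_eq {f : MvPowerSeries (Fin k) ℕ} (h0 : constantCoeff f = 0) :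
    starS f = 1 + f * starS f := by
  ext v
  rw [coeff_starS' h0 (N := v.degree + 2) (by omega), Finset.sum_range_succ', pow_zero, map_add,
    add_comm]
  congr 1
  simp only [pow_succ']
  rw [coeff_mul]
  simp only [coeff_mul]
  rw [Finset.sum_comm]
  refine Finset.sum_congr rfl ?_
  intro p hp
  rw [← Finset.mul_sum]
  congr 1
  rw [coeff_starS' h0]
  have this : p.1 + p.2 = v := by simpa using hp
  have h2 : p.1.degree + p.2.degree = v.degree := by rw [← this]; simp
  omega

lemma unique_sol {f c Y Z : MvPowerSeries (Fin k) ℕ} (h0 : constantCoeff f = 0)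
    (hY : Y = c + f * Y) (hZ : Z = c + f * Z) : Y = Z := by
  have key : ∀ N : ℕ, ∀ v : Fin k →₀ ℕ, v.degree = N → coeff v Y = coeff v Z := by
    intro N
    induction N using Nat.strong_induction_on with
    | _ N ih =>
      intro v hv
      rw [hY, hZ, map_add, map_add, coeff_mul, coeff_mul]
      congr 1
      refine Finset.sum_congr rfl ?_
      intro p hp
      have h1 : p.1 + p.2 = v := by simpa using hp
      have h2 : p.1.degree + p.2.degree = v.degree := by rw [← h1]; simp
      by_cases h3 : p.1 = 0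
      · rw [h3]
        have : coeff (0 : Fin k →₀ ℕ) f = 0 := by simpa using h0
        rw [this]; simp
      · have h4 : p.1.degree ≠ 0 := by
          intro h; exact h3 ((Finsupp.degree_eq_zero_iff _).1 h)
        rw [ih p.2.degree (by omega) p.2 rfl]
  ext v
  exact key _ v rfl

lemma starS_unique {f g : MvPowerSeries (Fin k) ℕ} (h0 : constantCoeff f = 0)
    (hg : g = 1 + f * g) : g = starS f :=
  unique_sol h0 hg (starS_eq h0)

lemma isRat_zero : IsRat (0 : MvPowerSeries (Fin k) ℕ) := .fin (by simp)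

lemma isRat_monomial (v : Fin k →₀ ℕ) (c : ℕ) : IsRat (monomial v c : MvPowerSeries (Fin k) ℕ) := by
  classical
  refine .fin ((Set.finite_singleton v).subset ?_)
  intro w hw
  by_contra h
  apply hw
  rw [coeff_monomial, if_neg (by simpa using h)]

lemma isRat_one : IsRat (1 : MvPowerSeries (Fin k) ℕ) := by
  rw [← monomial_zero_one]; exact isRat_monomial _ _

lemma isRat_natCast (c : ℕ) : IsRat (c : MvPowerSeries (Fin k) ℕ) := by
  induction c with
  | zero => rw [Nat.cast_zero]; exact isRat_zero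
  | succ n ih => rw [Nat.cast_succ]; exact .add ih isRat_one

lemma isRat_X (i : Fin k) : IsRat (X i : MvPowerSeries (Fin k) ℕ) := isRat_monomial _ _

lemma isRat_pow {f : MvPowerSeries (Fin k) ℕ} (hf : IsRat f) (n : ℕ) : IsRat (f ^ n) := by
  induction n with
  | zero => rw [pow_zero]; exact isRat_one
  | succ n ih => rw [pow_succ]; exact .mul ih hf

lemma isRat_sum {ι : Type*} (s : Finset ι) {f : ι → MvPowerSeries (Fin k) ℕ}
    (hf : ∀ i ∈ s, IsRat (f i)) : IsRat (∑ i ∈ s, f i) := by
  classical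
  induction s using Finset.induction_on with
  | empty => rw [Finset.sum_empty]; exact isRat_zero
  | insert a s ha ih =>
    rw [Finset.sum_insert ha]
    exact .add (hf a (Finset.mem_insert_self _ _))
      (ih fun i hi => hf i (Finset.mem_insert_of_mem hi))

/-- Finite proper linear systems with rational coefficients have rational solutions. -/
lemma system : ∀ (n : ℕ) (F c : Fin n → MvPowerSeries (Fin k) ℕ)
    (A : Fin n → Fin n → MvPowerSeries (Fin k) ℕ), (∀ i, IsRat (c i)) →
    (∀ i j, IsRat (A i j) ∧ constantCoeff (A i j) = 0) →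
    (∀ i, F i = c i + ∑ j, A i j * F j) → ∀ i, IsRat (F i) := by
  intro n
  induction n with
  | zero => intro F c A _ _ _ i; exact i.elim0
  | succ n ih =>
    intro F c A hc hA hF
    set l := Fin.last n
    set S := starS (A l l) with hS
    have hSr : IsRat S := .star (hA l l).1 (hA l l).2
    have hSe : S = 1 + A l l * S := starS_eq (hA l l).2
    -- solve for the last unknown
    set B : MvPowerSeries (Fin k) ℕ := c l + ∑ j : Fin n, A l j.castSucc * F j.castSucc with hB
    have hl : F l = S * B := by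
      refine unique_sol (hA l l).2 (c := B) ?_ ?_
      · conv_lhs => rw [hF l, Fin.sum_univ_castSucc]
        rw [hB, add_assoc]
      · conv_lhs => rw [hSe]
        ring
    have hrest : ∀ i : Fin n, IsRat (F i.castSucc) := by
      refine ih (fun i => F i.castSucc) (fun i => c i.castSucc + A i.castSucc l * S * c l)
        (fun i j => A i.castSucc j.castSucc + A i.castSucc l * S * A l j.castSucc) ?_ ?_ ?_
      · intro i
        exact .add (hc _) (.mul (.mul (hA _ _).1 hSr) (hc _))
      · intro i j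
        refine ⟨.add (hA _ _).1 (.mul (.mul (hA _ _).1 hSr) (hA _ _).1), ?_⟩
        rw [map_add, map_mul, map_mul, (hA _ _).2, (hA i.castSucc l).2]
        simp
      · intro i
        conv_lhs => rw [hF i.castSucc, Fin.sum_univ_castSucc]
        change _ + (_ + A i.castSucc l * F l) = _
        rw [hl, hB, mul_add, mul_add]
        simp only [add_mul, Finset.sum_add_distrib, Finset.mul_sum]
        simp only [mul_assoc]
        abel
    intro i
    refine Fin.lastCases ?_ (fun j => hrest j) i
    change IsRat (F l)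
    rw [hl, hB]
    exact .mul hSr (.add (hc _) (isRat_sum _ fun j _ => .mul (hA _ _).1 (hrest j)))

end star

/-! ### total degree slices -/

section phi
variable {k : ℕ}

/-- sum of the coefficients in total degree `n` -/
noncomputable def phi (f : MvPowerSeries (Fin k) ℕ) (n : ℕ) : ℕ :=
  ∑ v ∈ Finset.finsuppAntidiag (Finset.univ : Finset (Fin k)) n, coeff v f

lemma mem_slice {v : Fin k →₀ ℕ} {n : ℕ} :
    v ∈ Finset.finsuppAntidiag (Finset.univ : Finset (Fin k)) n ↔ v.degree = n := by
  rw [Finset.mem_finsuppAntidiag, Finsupp.degree_eq_sum]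
  simp

lemma phi_add (f g : MvPowerSeries (Fin k) ℕ) (n : ℕ) : phi (f + g) n = phi f n + phi g n := by
  simp [phi, Finset.sum_add_distrib]

lemma phi_mul (f g : MvPowerSeries (Fin k) ℕ) (n : ℕ) :
    phi (f * g) n = ∑ p ∈ HasAntidiagonal.antidiagonal n, phi f p.1 * phi g p.2 := by
  classical
  simp only [phi, Finset.sum_mul_sum]
  simp only [coeff_mul]
  simp only [← Finset.sum_product']
  rw [Finset.sum_sigma', Finset.sum_sigma']
  refine Finset.sum_bij' (fun x _ => ⟨(x.2.1.degree, x.2.2.degree), x.2⟩)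
    (fun y _ => ⟨y.2.1 + y.2.2, y.2⟩) ?_ ?_ ?_ ?_ ?_
  · rintro ⟨v, u, w⟩ h
    simp only [Finset.mem_sigma, mem_slice, Finset.mem_product] at h ⊢
    obtain ⟨h1, h2⟩ := h
    have h3 : u + w = v := by simpa using h2
    refine ⟨?_, by simp⟩
    have : u.degree + w.degree = n := by rw [← h1, ← h3]; simp
    simpa using this
  · rintro ⟨⟨i, j⟩, u, w⟩ h
    simp only [Finset.mem_sigma, mem_slice, Finset.mem_product] at h ⊢
    obtain ⟨h1, h2, h3⟩ := h
    have h4 : i + j = n := by simpa using h1
    refine ⟨?_, by simp⟩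
    rw [← h4, ← h2, ← h3]; simp
  · rintro ⟨v, u, w⟩ h
    simp only [Finset.mem_sigma, mem_slice] at h
    obtain ⟨h1, h2⟩ := h
    have h3 : u + w = v := by simpa using h2
    simp [h3]
  · rintro ⟨⟨i, j⟩, u, w⟩ h
    simp only [Finset.mem_sigma, mem_slice, Finset.mem_product] at h
    obtain ⟨h1, h2, h3⟩ := h
    simp [← h2, ← h3]
  · rintro ⟨v, u, w⟩ h
    rfl

/-- eventually monotone along a period -/
def Per (f : ℕ → ℕ) : Prop := ∃ p ≥ 1, ∃ n0, ∀ n ≥ n0, f n ≤ f (n + p)

lemma per_mul_period {f : ℕ → ℕ} {p n0 : ℕ} (h : ∀ n ≥ n0, f n ≤ f (n + p)) (q : ℕ) :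
    ∀ n ≥ n0, f n ≤ f (n + p * q) := by
  induction q with
  | zero => intro n _; simp
  | succ q ih =>
    intro n hn
    have h1 := ih n hn
    have h2 := h (n + p * q) (by omega)
    rw [add_assoc] at h2
    exact h1.trans h2

lemma Per.add' {f g : ℕ → ℕ} (hf : Per f) (hg : Per g) : Per (fun n => f n + g n) := by
  obtain ⟨p, hp, a, ha⟩ := hf
  obtain ⟨q, hq, b, hb⟩ := hg
  refine ⟨p * q, Nat.mul_pos hp hq, a + b, ?_⟩
  intro n hn
  have h1 := per_mul_period ha q n (by omega)
  have h2 := per_mul_period hb p n (by omega)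
  rw [mul_comm q p] at h2
  exact Nat.add_le_add h1 h2

lemma Per.mul' {f g : ℕ → ℕ} (hf : Per f) (hg : Per g) :
    Per (fun n => ∑ p ∈ HasAntidiagonal.antidiagonal n, f p.1 * g p.2) := by
  obtain ⟨p, hp, a, ha⟩ := hf
  obtain ⟨q, hq, b, hb⟩ := hg
  refine ⟨p * q, Nat.mul_pos hp hq, a + b, ?_⟩
  set P := p * q with hP
  have ha' : ∀ n ≥ a, f n ≤ f (n + P) := per_mul_period ha q
  have hb' : ∀ n ≥ b, g n ≤ g (n + P) := by
    have := per_mul_period hb p
    rw [mul_comm q p] at this
    exact this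
  intro n hn
  simp only []
  rw [Finset.Nat.sum_antidiagonal_eq_sum_range_succ (fun i j => f i * g j),
    Finset.Nat.sum_antidiagonal_eq_sum_range_succ (fun i j => f i * g j)]
  have e1 : ∑ i ∈ Finset.range (n + 1), f i * g (n - i) =
      ∑ i ∈ Finset.range a, f i * g (n - i) + ∑ i ∈ Finset.Ico a (n + 1), f i * g (n - i) := by
    rw [Finset.sum_range_add_sum_Ico _ (by omega)]
  have e2 : ∑ i ∈ Finset.range (n + P + 1), f i * g (n + P - i) =
      ∑ i ∈ Finset.range (a + P), f i * g (n + P - i) +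
        ∑ i ∈ Finset.Ico (a + P) (n + P + 1), f i * g (n + P - i) := by
    rw [Finset.sum_range_add_sum_Ico _ (by omega)]
  rw [e1, e2]
  refine Nat.add_le_add ?_ ?_
  · calc ∑ i ∈ Finset.range a, f i * g (n - i)
        ≤ ∑ i ∈ Finset.range a, f i * g (n + P - i) := by
          refine Finset.sum_le_sum fun i hi => Nat.mul_le_mul_left _ ?_
          have hi' := Finset.mem_range.1 hi
          have := hb' (n - i) (by omega)
          have e : n - i + P = n + P - i := by omega
          rwa [e] at this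
      _ ≤ ∑ i ∈ Finset.range (a + P), f i * g (n + P - i) :=
          Finset.sum_le_sum_of_subset (by intro x; simp only [Finset.mem_range]; omega)
  · have e3 : Finset.Ico (a + P) (n + P + 1) = Finset.Ico (a + P) (n + 1 + P) := by
      congr 1; omega
    rw [e3, ← Finset.sum_Ico_add' (fun i => f i * g (n + P - i)) a (n + 1) P]
    refine Finset.sum_le_sum fun i hi => ?_
    have hi' := Finset.mem_Ico.1 hi
    have e : n + P - (i + P) = n - i := by omega
    simp only [e]
    exact Nat.mul_le_mul_right _ (ha' i hi'.1)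

lemma isRat_per {f : MvPowerSeries (Fin k) ℕ} (hf : IsRat f) : Per (phi f) := by
  classical
  induction hf with
  | @fin f hf =>
    refine ⟨1, le_rfl, (hf.toFinset.sup fun v => v.degree) + 1, ?_⟩
    intro n hn
    have : phi f n = 0 := by
      refine Finset.sum_eq_zero fun v hv => ?_
      rw [mem_slice] at hv
      by_contra h
      have h1 : v ∈ hf.toFinset := by simpa using h
      have h2 : v.degree ≤ hf.toFinset.sup fun v : Fin k →₀ ℕ => v.degree :=
        Finset.le_sup (f := fun v : Fin k →₀ ℕ => v.degree) h1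
      omega
    rw [this]; exact Nat.zero_le _
  | @add f g _ _ h1 h2 =>
    have : phi (f + g) = fun n => phi f n + phi g n := by funext n; exact phi_add f g n
    rw [this]; exact h1.add' h2
  | @mul f g _ _ h1 h2 =>
    have : phi (f * g) = fun n => ∑ p ∈ HasAntidiagonal.antidiagonal n, phi f p.1 * phi g p.2 := by
      funext n; exact phi_mul f g n
    rw [this]; exact h1.mul' h2
  | @star f _ h0 _ =>
    have key : ∀ n, phi (starS f) n = phi (1 : MvPowerSeries (Fin k) ℕ) n +
        ∑ p ∈ HasAntidiagonal.antidiagonal n, phi f p.1 * phi (starS f) p.2 := by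
      intro n
      conv_lhs => rw [starS_eq h0]
      rw [phi_add, phi_mul]
    have hf0 : phi f 0 = 0 := by
      have : coeff (0 : Fin k →₀ ℕ) f = 0 := by simpa using h0
      refine Finset.sum_eq_zero fun v hv => ?_
      rw [mem_slice] at hv
      have hv0 : v = 0 := (Finsupp.degree_eq_zero_iff _).1 hv
      rw [hv0, this]
    have h1 : ∀ n ≥ 1, phi (1 : MvPowerSeries (Fin k) ℕ) n = 0 := by
      intro n hn
      refine Finset.sum_eq_zero fun v hv => ?_
      rw [mem_slice] at hv
      rw [coeff_one, if_neg]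
      rintro rfl
      simp at hv
      omega
    by_cases hz : ∀ i, phi f i = 0
    · refine ⟨1, le_rfl, 1, ?_⟩
      intro n hn
      rw [key n, h1 n hn]
      simp [hz]
    · push Not at hz
      obtain ⟨i, hi⟩ := hz
      have hi1 : 1 ≤ i := by
        rcases Nat.eq_zero_or_pos i with h | h
        · subst h; exact absurd hf0 hi
        · exact h
      refine ⟨i, hi1, 0, ?_⟩
      intro n _
      rw [key (n + i)]
      have hmem : (i, n) ∈ HasAntidiagonal.antidiagonal (n + i) := by
        simp [add_comm]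
      have := Finset.single_le_sum (f := fun p : ℕ × ℕ => phi f p.1 * phi (starS f) p.2)
        (fun _ _ => Nat.zero_le _) hmem
      simp only at this
      have h3 : 1 * phi (starS f) n ≤ phi f i * phi (starS f) n :=
        Nat.mul_le_mul_right _ (Nat.one_le_iff_ne_zero.2 hi)
      omega

end phi

/-! ### the Gaussian integer `1 + 2 i` -/

/-- real part of `(1 + 2 i) ^ n` and imaginary part -/
def uv : ℕ → ℤ × ℤ
  | 0 => (1, 0)
  | n + 1 => ((uv n).1 - 2 * (uv n).2, 2 * (uv n).1 + (uv n).2)

lemma uv_norm (n : ℕ) : (uv n).1 ^ 2 + (uv n).2 ^ 2 = 5 ^ n := by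
  induction n with
  | zero => simp [uv]
  | succ n ih => simp only [uv, pow_succ (5 : ℤ) n, ← ih]; ring

lemma uv_mod (n : ℕ) : (uv (4 * n + 1)).1 % 5 = 1 ∧ (uv (4 * n + 1)).2 % 5 = 2 := by
  induction n with
  | zero => simp [uv]
  | succ n ih =>
    have e : 4 * (n + 1) + 1 = 4 * n + 1 + 1 + 1 + 1 + 1 := by ring
    rw [e]
    simp only [uv] at ih ⊢
    omega

lemma v_ne (n : ℕ) (hn : 1 ≤ n) : (uv n).2 ≠ 0 := by
  obtain ⟨m, hm⟩ : ∃ m, n = 4 * m + 1 ∨ n = 4 * m + 1 + 1 ∨ n = 4 * m + 1 + 1 + 1 ∨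
      n = 4 * m + 1 + 1 + 1 + 1 := ⟨(n - 1) / 4, by omega⟩
  have h := uv_mod m
  rcases hm with rfl | rfl | rfl | rfl <;> simp only [uv] at h ⊢ <;> omega

lemma u_ne (n : ℕ) : (uv n).1 ≠ 0 := by
  have : (uv n).1 % 2 = 1 := by
    induction n with
    | zero => simp [uv]
    | succ n ih => simp only [uv]; omega
  intro h
  rw [h] at this
  norm_num at this

lemma uv_complex (n : ℕ) : ((1 + 2 * Complex.I) ^ n : ℂ) = ((uv n).1 : ℂ) + ((uv n).2 : ℂ) * Complex.I := by
  induction n with
  | zero => simp [uv]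
  | succ n ih =>
    rw [pow_succ, ih]
    simp only [uv]
    push_cast
    have := Complex.I_sq
    linear_combination (2 * ((uv n).2 : ℂ)) * this

/-- the argument of `1 + 2 i` -/
noncomputable def th : ℝ := (1 + 2 * Complex.I : ℂ).arg

lemma cos_th (n : ℕ) : ((uv n).1 : ℝ) = Real.sqrt 5 ^ n * Real.cos (n * th) ∧
    ((uv n).2 : ℝ) = Real.sqrt 5 ^ n * Real.sin (n * th) := by
  have hz : (1 + 2 * Complex.I : ℂ) = (Real.sqrt 5 : ℂ) * Complex.exp (th * Complex.I) := by
    have h1 := Complex.norm_mul_exp_arg_mul_I (1 + 2 * Complex.I)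
    have h2 : ‖(1 + 2 * Complex.I : ℂ)‖ = Real.sqrt 5 := by
      rw [Complex.norm_def, Complex.normSq_apply]
      norm_num
    rw [h2] at h1
    exact h1.symm
  have h3 : ((1 + 2 * Complex.I) ^ n : ℂ) =
      ((Real.sqrt 5 ^ n : ℝ) : ℂ) * Complex.exp ((n * th : ℝ) * Complex.I) := by
    rw [hz, mul_pow, ← Complex.exp_nat_mul]
    push_cast
    ring_nf
  rw [uv_complex] at h3
  have hre := congrArg Complex.re h3
  have him := congrArg Complex.im h3
  simp only [Complex.re_ofReal_mul, Complex.im_ofReal_mul, Complex.exp_ofReal_mul_I_re,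
    Complex.exp_ofReal_mul_I_im] at hre him
  constructor
  · simpa using hre
  · simpa using him

lemma no_period (q n0 : ℕ) (hq : 1 ≤ q)
    (h : ∀ m ≥ n0, (uv m).1 ^ 2 ≤ (uv (m + q)).1 ^ 2) : False := by
  have : Fact (0 < 2 * Real.pi) := ⟨by positivity⟩
  have : CompactSpace Real.Angle := inferInstanceAs (CompactSpace (AddCircle (2 * Real.pi)))
  set a : Real.Angle := (th : Real.Angle) with ha
  have hcoe : ∀ m : ℕ, m • a = ((m * th : ℝ) : Real.Angle) := by
    intro m
    rw [ha]
    simp
  have hs5 : (0 : ℝ) < Real.sqrt 5 := by positivity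
  have horder : addOrderOf a = 0 := by
    rw [addOrderOf_eq_zero_iff']
    intro m hm h0
    have h1 : Real.Angle.sin (m • a) = 0 := by rw [h0]; simp
    rw [hcoe, Real.Angle.sin_coe] at h1
    have h2 := (cos_th m).2
    rw [h1, mul_zero] at h2
    exact v_ne m hm (by exact_mod_cast h2)
  have hdense : DenseRange (· • a : ℤ → Real.Angle) := AddCircle.denseRange_zsmul_iff.2 horder
  -- target
  set x0 : Real.Angle := ((Real.pi / 2 - q * th : ℝ) : Real.Angle) with hx0
  let U : Set Real.Angle := {x | 5 ^ q * (Real.Angle.cos (x + ((q * th : ℝ) : Real.Angle))) ^ 2 <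
    (Real.Angle.cos x) ^ 2}
  have hU : IsOpen U := by
    refine isOpen_lt ?_ ?_
    · have := Real.Angle.continuous_cos
      fun_prop
    · have := Real.Angle.continuous_cos
      fun_prop
  have hxU : x0 ∈ U := by
    change 5 ^ q * (Real.Angle.cos (x0 + ((q * th : ℝ) : Real.Angle))) ^ 2 < (Real.Angle.cos x0) ^ 2
    rw [hx0, ← Real.Angle.coe_add, Real.Angle.cos_coe, Real.Angle.cos_coe, Real.cos_pi_div_two_sub]
    have e : Real.pi / 2 - q * th + q * th = Real.pi / 2 := by ring
    rw [e, Real.cos_pi_div_two]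
    have h2 := (cos_th q).2
    have h3 : Real.sin (q * th) ≠ 0 := by
      intro h0
      rw [h0, mul_zero] at h2
      exact v_ne q hq (by exact_mod_cast h2)
    have := sq_pos_of_ne_zero h3
    simpa using this
  have hcl : MapClusterPt x0 atTop (fun m : ℕ => m • a) := by
    refine ((mapClusterPt_atTop_nsmul_tfae x0 a).out 0 3).2 ?_
    exact hdense x0
  have hfreq := mapClusterPt_iff_frequently.1 hcl U (hU.mem_nhds hxU)
  obtain ⟨m, hm1, hm2⟩ := (hfreq.and_eventually (eventually_ge_atTop n0)).exists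
  change 5 ^ q * (Real.Angle.cos (m • a + ((q * th : ℝ) : Real.Angle))) ^ 2 <
    (Real.Angle.cos (m • a)) ^ 2 at hm1
  rw [hcoe, ← Real.Angle.coe_add, Real.Angle.cos_coe, Real.Angle.cos_coe] at hm1
  have h4 := h m hm2
  have h5 : ((uv m).1 : ℝ) ^ 2 ≤ ((uv (m + q)).1 : ℝ) ^ 2 := by exact_mod_cast h4
  rw [(cos_th m).1, (cos_th (m + q)).1, mul_pow, mul_pow] at h5
  have h6 : (Real.sqrt 5 ^ m) ^ 2 = 5 ^ m := by
    rw [← pow_mul, mul_comm, pow_mul, Real.sq_sqrt (by norm_num)]
  have h7 : (Real.sqrt 5 ^ (m + q)) ^ 2 = 5 ^ m * 5 ^ q := by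
    rw [← pow_mul, mul_comm, pow_mul, Real.sq_sqrt (by norm_num), pow_add]
  rw [h6, h7, mul_assoc] at h5
  have h8 : (0 : ℝ) < 5 ^ m := by positivity
  have h9 := le_of_mul_le_mul_left h5 h8
  have e : ((m + q : ℕ) : ℝ) * th = m * th + q * th := by push_cast; ring
  rw [e] at h9
  linarith

/-! ### series in `x = a^2 b^3` -/

/-- `a ^ 2 * b ^ 3` -/
noncomputable def xx : MvPowerSeries (Fin 2) ℕ := X 0 ^ 2 * X 1 ^ 3

/-- its exponent -/
noncomputable def mx : Fin 2 →₀ ℕ := Finsupp.single 0 2 + Finsupp.single 1 3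

lemma xx_eq : xx = monomial mx 1 := by
  rw [xx, X_pow_eq, X_pow_eq, monomial_mul_monomial, mx, one_mul]

lemma mx_zero : mx 0 = 2 := by simp [mx]
lemma mx_one : mx 1 = 3 := by simp [mx]

lemma mx_le (v : Fin 2 →₀ ℕ) : mx ≤ v ↔ 2 ≤ v 0 ∧ 3 ≤ v 1 := by
  rw [Finsupp.le_def]
  constructor
  · intro h
    have h0 := h 0
    have h1 := h 1
    rw [mx_zero] at h0
    rw [mx_one] at h1
    exact ⟨h0, h1⟩
  · rintro ⟨h0, h1⟩ i
    fin_cases i
    · simpa [mx_zero] using h0
    · simpa [mx_one] using h1

lemma vzero (v : Fin 2 →₀ ℕ) : v = 0 ↔ v 0 = 0 ∧ v 1 = 0 := by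
  constructor
  · rintro rfl; simp
  · rintro ⟨h0, h1⟩
    ext i
    fin_cases i
    · simpa using h0
    · simpa using h1

/-- the series `∑ c n x^n` -/
noncomputable def P (c : ℕ → ℕ) : MvPowerSeries (Fin 2) ℕ :=
  fun v => if v 0 = 2 * (v 1 - v 0) ∧ v 1 = 3 * (v 1 - v 0) then c (v 1 - v 0) else 0

lemma coeff_P (c : ℕ → ℕ) (v : Fin 2 →₀ ℕ) : coeff v (P c) =
    if v 0 = 2 * (v 1 - v 0) ∧ v 1 = 3 * (v 1 - v 0) then c (v 1 - v 0) else 0 := rfl

lemma P_succ {c d : ℕ → ℕ} (h : ∀ n, c (n + 1) = d n) :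
    P c = monomial 0 (c 0) + xx * P d := by
  classical
  ext v
  rw [map_add, xx_eq, coeff_monomial_mul, coeff_monomial, coeff_P, coeff_P, one_mul]
  simp only [Finsupp.coe_tsub, Pi.sub_apply, mx_zero, mx_one, mx_le, vzero]
  by_cases hc : v 0 = 2 * (v 1 - v 0) ∧ v 1 = 3 * (v 1 - v 0)
  · rw [if_pos hc]
    by_cases h0 : v 1 - v 0 = 0
    · have h1 : v 0 = 0 ∧ v 1 = 0 := by omega
      rw [if_pos h1, if_neg (by omega), h0, add_zero]
    · obtain ⟨m, hm⟩ := Nat.exists_eq_succ_of_ne_zero h0
      rw [if_neg (by omega), if_pos (by omega), if_pos (by omega), zero_add, hm]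
      have : v 1 - 3 - (v 0 - 2) = m := by omega
      rw [this, Nat.succ_eq_add_one, h]
  · rw [if_neg hc, if_neg (by omega), zero_add]
    by_cases h1 : 2 ≤ v 0 ∧ 3 ≤ v 1
    · rw [if_pos h1, if_neg (by omega)]
    · rw [if_neg h1]

lemma natCast_mul_coeff (m : ℕ) (f : MvPowerSeries (Fin 2) ℕ) (v : Fin 2 →₀ ℕ) :
    coeff v ((m : MvPowerSeries (Fin 2) ℕ) * f) = m * coeff v f := by
  rw [← nsmul_eq_mul, map_nsmul, smul_eq_mul]

lemma P_lin {n : ℕ} (m : Fin n → ℕ) (c : Fin n → ℕ → ℕ) :
    P (fun j => ∑ i, m i * c i j) = ∑ i, (m i : MvPowerSeries (Fin 2) ℕ) * P (c i) := by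
  ext v
  rw [map_sum, coeff_P]
  simp only [natCast_mul_coeff, coeff_P]
  split_ifs <;> simp

lemma P_add (c d : ℕ → ℕ) : P (fun n => c n + d n) = P c + P d := by
  ext v
  rw [map_add, coeff_P, coeff_P, coeff_P]
  split_ifs <;> simp

lemma phi_P (c : ℕ → ℕ) (n : ℕ) : phi (P c) (5 * n) = c n := by
  classical
  let w : Fin 2 →₀ ℕ := Finsupp.single 0 (2 * n) + Finsupp.single 1 (3 * n)
  have w0 : w 0 = 2 * n := by simp [w]
  have w1 : w 1 = 3 * n := by simp [w]
  rw [phi, Finset.sum_eq_single w]
  · rw [coeff_P, w0, w1, if_pos (by omega)]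
    congr 1; omega
  · intro v hv hvw
    rw [mem_slice, Finsupp.degree_eq_sum, Fin.sum_univ_two] at hv
    rw [coeff_P, if_neg]
    rintro ⟨h1, h2⟩
    apply hvw
    ext i
    fin_cases i
    · change v 0 = w 0; omega
    · change v 1 = w 1; omega
  · intro h
    exfalso; apply h
    rw [mem_slice, Finsupp.degree_eq_sum, Fin.sum_univ_two, w0, w1]
    omega

lemma phi_P' (c : ℕ → ℕ) (m : ℕ) (hm : ¬ 5 ∣ m) : phi (P c) m = 0 := by
  refine Finset.sum_eq_zero fun v hv => ?_
  rw [mem_slice, Finsupp.degree_eq_sum, Fin.sum_univ_two] at hv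
  rw [coeff_P, if_neg]
  rintro ⟨h1, h2⟩
  apply hm
  exact ⟨v 1 - v 0, by omega⟩

/-- squares of the real parts -/
def tt (n : ℕ) : ℕ := ((uv n).1 ^ 2).toNat

lemma tt_cast (n : ℕ) : (tt n : ℤ) = (uv n).1 ^ 2 := Int.toNat_of_nonneg (sq_nonneg _)

lemma not_rat : ¬ IsRat (P tt) := by
  intro h
  obtain ⟨p, hp, n0, hn0⟩ := isRat_per h
  have hpos : ∀ n, 0 < tt n := by
    intro n
    have : (0 : ℤ) < tt n := by rw [tt_cast]; exact sq_pos_of_ne_zero (u_ne n)
    exact_mod_cast this
  have h5 : 5 ∣ p := by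
    by_contra hnot
    have h1 := hn0 (5 * n0) (by omega)
    rw [phi_P, phi_P' tt (5 * n0 + p) (by omega)] at h1
    exact absurd (hpos n0) (by omega)
  obtain ⟨q, rfl⟩ := h5
  refine no_period q n0 (by omega) ?_
  intro m hm
  have h1 := hn0 (5 * m) (by omega)
  rw [← mul_add, phi_P, phi_P] at h1
  have h2 : (tt m : ℤ) ≤ tt (m + q) := by exact_mod_cast h1
  rwa [tt_cast, tt_cast] at h2

/-- the seven auxiliary sequences: `e, e - t, e + t, e - y, e + y, e - p, e + p` -/
def sZ (i : Fin 7) (n : ℕ) : ℤ :=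
  ![10 ^ n, 10 ^ n - (uv n).1 ^ 2, 10 ^ n + (uv n).1 ^ 2, 10 ^ n - (uv n).2 ^ 2,
    10 ^ n + (uv n).2 ^ 2, 10 ^ n - (uv n).1 * (uv n).2, 10 ^ n + (uv n).1 * (uv n).2] i

/-- the transition matrix -/
def MM (i j : Fin 7) : ℕ :=
  ![![10, 0, 0, 0, 0, 0, 0], ![1, 1, 0, 4, 0, 0, 4], ![1, 0, 1, 0, 4, 4, 0],
    ![1, 4, 0, 1, 0, 4, 0], ![1, 0, 4, 0, 1, 0, 4], ![3, 2, 0, 0, 2, 0, 3],
    ![3, 0, 2, 2, 0, 3, 0]] i j

lemma sZ_nonneg (i : Fin 7) (n : ℕ) : 0 ≤ sZ i n := by
  have h1 := uv_norm n
  have h2 : (5 : ℤ) ^ n ≤ 10 ^ n := pow_le_pow_left₀ (by norm_num) (by norm_num) n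
  have h3 := sq_nonneg (uv n).1
  have h4 := sq_nonneg (uv n).2
  have h5 := sq_nonneg ((uv n).1 - (uv n).2)
  have h6 := sq_nonneg ((uv n).1 + (uv n).2)
  fin_cases i <;> simp [sZ] <;> nlinarith

lemma sZ_succ (i : Fin 7) (n : ℕ) : sZ i (n + 1) = ∑ j, (MM i j : ℤ) * sZ j n := by
  fin_cases i <;> simp [sZ, MM, Fin.sum_univ_succ, uv, pow_succ] <;> ring

/-- natural number versions -/
def sN (i : Fin 7) (n : ℕ) : ℕ := (sZ i n).toNat

lemma sN_cast (i : Fin 7) (n : ℕ) : (sN i n : ℤ) = sZ i n := Int.toNat_of_nonneg (sZ_nonneg i n)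

lemma sN_succ (i : Fin 7) (n : ℕ) : sN i (n + 1) = ∑ j, MM i j * sN j n := by
  have : (sN i (n + 1) : ℤ) = ∑ j, (MM i j : ℤ) * (sN j n : ℤ) := by
    rw [sN_cast, sZ_succ]
    exact Finset.sum_congr rfl fun j _ => by rw [sN_cast]
  exact_mod_cast this

lemma isRat_xx : IsRat xx := .mul (isRat_pow (isRat_X _) _) (isRat_pow (isRat_X _) _)

lemma cc_xx : constantCoeff xx = 0 := by simp [xx]

lemma isRat_seq (i : Fin 7) : IsRat (P (sN i)) := by
  refine system 7 (fun i => P (sN i)) (fun i => monomial 0 (sN i 0))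
    (fun i j => (MM i j : MvPowerSeries (Fin 2) ℕ) * xx) ?_ ?_ ?_ i
  · intro i; exact isRat_monomial _ _
  · intro i j
    refine ⟨.mul (isRat_natCast _) isRat_xx, ?_⟩
    rw [map_mul, cc_xx, mul_zero]
  · intro i
    have h := P_succ (c := sN i) (d := fun n => ∑ j, MM i j * sN j n) (sN_succ i)
    rw [P_lin] at h
    change P (sN i) = monomial 0 (sN i 0) + ∑ j, (MM i j : MvPowerSeries (Fin 2) ℕ) * xx * P (sN j)
    rw [h, Finset.mul_sum]
    congr 1
    exact Finset.sum_congr rfl fun j _ => by ring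

lemma split0 : P (sN 0) = P tt + P (sN 1) := by
  rw [← P_add]
  congr 1
  funext n
  have : (sN 0 n : ℤ) = tt n + sN 1 n := by
    rw [sN_cast, sN_cast, tt_cast]
    simp [sZ]
  exact_mod_cast this

lemma E_eq : P (sN 0) = 1 + (10 * xx) * P (sN 0) := by
  have h := P_succ (c := sN 0) (d := fun n => ∑ j, MM 0 j * sN j n) (sN_succ 0)
  rw [P_lin] at h
  have h2 : (∑ j, (MM 0 j : MvPowerSeries (Fin 2) ℕ) * P (sN j)) = 10 * P (sN 0) := by
    simp [Fin.sum_univ_succ, MM]
  rw [h2] at h
  have h3 : (monomial 0 (sN 0 0) : MvPowerSeries (Fin 2) ℕ) = 1 := by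
    have : sN 0 0 = 1 := by simp [sN, sZ]
    rw [this, monomial_zero_one]
  rw [h3] at h
  conv_lhs => rw [h]
  ring

/-! ### counting words -/

/-- words with a given Parikh vector -/
def W (v : Fin 2 →₀ ℕ) : Set (List (Fin 2)) := {w | ∀ a, w.count a = v a}

lemma W_finite (v : Fin 2 →₀ ℕ) : (W v).Finite := by
  refine (List.finite_length_eq (Fin 2) (v 0 + v 1)).subset ?_
  intro w hw
  have h0 := hw 0
  have h1 := hw 1
  have h2 : w.length = ∑ a, w.count a := by
    rw [← List.sum_toFinset_count_eq_length]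
    refine Finset.sum_subset (Finset.subset_univ _) ?_
    intro a _ ha
    exact List.count_eq_zero_of_not_mem (by simpa using ha)
  change w.length = _
  rw [h2, Fin.sum_univ_two, h0, h1]

lemma coeff_char (L : Set (List (Fin 2))) (v : Fin 2 →₀ ℕ) :
    coeff v (charSeries L) = {w : List (Fin 2) | w ∈ L ∧ ∀ a, w.count a = v a}.ncard := rfl

lemma coeff_univ (v : Fin 2 →₀ ℕ) : coeff v (charSeries Set.univ) = (W v).ncard := by
  rw [coeff_char]
  congr 1
  ext w
  simp [W]

lemma char_add (L : Set (List (Fin 2))) :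
    charSeries L + charSeries Lᶜ = charSeries Set.univ := by
  ext v
  rw [map_add, coeff_univ, coeff_char, coeff_char]
  rw [← Set.ncard_union_eq ?_ ((W_finite v).subset fun w hw => hw.2)
    ((W_finite v).subset fun w hw => hw.2)]
  · congr 1
    ext w
    simp only [Set.mem_union, Set.mem_ofPred_eq, Set.mem_compl_iff, W]
    tauto
  · rw [Set.disjoint_left]
    rintro w ⟨h1, _⟩ ⟨h2, _⟩
    exact h2 h1

lemma single_le (i : Fin 2) (v : Fin 2 →₀ ℕ) : Finsupp.single i 1 ≤ v ↔ 1 ≤ v i := by
  rw [Finsupp.single_le_iff]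

lemma first_letter (i : Fin 2) (v : Fin 2 →₀ ℕ) :
    {w ∈ W v | w.head? = some i}.ncard =
      if Finsupp.single i 1 ≤ v then (W (v - Finsupp.single i 1)).ncard else 0 := by
  classical
  split_ifs with h
  · rw [single_le] at h
    rw [← Set.ncard_image_of_injective (W (v - Finsupp.single i 1))
      (f := fun w => i :: w) (List.cons_injective)]
    congr 1
    ext w
    simp only [Set.mem_ofPred_eq, Set.mem_image]
    constructor
    · rintro ⟨h1, h2⟩
      cases w with
      | nil => simp at h2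
      | cons b w =>
        have hb : b = i := by simpa using h2
        subst hb
        refine ⟨w, ?_, rfl⟩
        intro a
        have h3 := h1 a
        rw [List.count_cons] at h3
        rw [Finsupp.tsub_apply, Finsupp.single_apply]
        by_cases hab : b = a
        · subst hab
          simp only [beq_self_eq_true, if_true] at h3 ⊢
          omega
        · have : (b == a) = false := by simpa using hab
          rw [this] at h3
          rw [if_neg hab]
          simpa using h3
    · rintro ⟨w', h1, rfl⟩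
      refine ⟨?_, by simp⟩
      intro a
      have h3 := h1 a
      rw [Finsupp.tsub_apply, Finsupp.single_apply] at h3
      rw [List.count_cons]
      by_cases hab : i = a
      · subst hab
        simp only [beq_self_eq_true, if_true] at h3 ⊢
        omega
      · have : (i == a) = false := by simpa using hab
        rw [this]
        rw [if_neg hab] at h3
        simpa using h3
  · rw [single_le] at h
    rw [Set.ncard_eq_zero ((W_finite v).subset fun w hw => hw.1)]
    ext w
    simp only [Set.mem_ofPred_eq, Set.mem_empty_iff_false, iff_false, not_and]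
    intro h1 h2
    cases w with
    | nil => simp at h2
    | cons b w =>
      have hb : b = i := by simpa using h2
      subst hb
      have h3 := h1 b
      rw [List.count_cons_self] at h3
      omega

lemma univ_eq : charSeries (Set.univ : Set (List (Fin 2))) =
    1 + (X 0 + X 1) * charSeries Set.univ := by
  classical
  ext v
  rw [map_add, add_mul, map_add, X_def, X_def, coeff_monomial_mul, coeff_monomial_mul, one_mul,
    one_mul, coeff_univ, coeff_univ, coeff_univ, ← first_letter, ← first_letter, coeff_one]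
  have hf : ∀ i : Fin 2, ({w ∈ W v | w.head? = some i}).Finite := fun i =>
    (W_finite v).subset fun w hw => hw.1
  rw [← Set.ncard_union_eq ?_ (hf 0) (hf 1)]
  · by_cases hv : v = 0
    · rw [if_pos hv]
      have h1 : W v = {[]} := by
        ext w
        simp only [W, Set.mem_ofPred_eq, Set.mem_singleton_iff, hv, Finsupp.coe_zero,
          Pi.zero_apply]
        constructor
        · intro h
          refine List.eq_nil_iff_forall_not_mem.2 fun a ha => ?_
          exact absurd (h a) (by rw [List.count_eq_zero]; simpa using ha)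
        · rintro rfl; simp
      have h2 : ({w ∈ W v | w.head? = some 0} ∪ {w ∈ W v | w.head? = some 1} :
          Set (List (Fin 2))) = ∅ := by
        rw [h1]
        ext w
        simp only [Set.mem_union, Set.mem_ofPred_eq, Set.mem_singleton_iff, Set.mem_empty_iff_false,
          iff_false]
        rintro (⟨rfl, h⟩ | ⟨rfl, h⟩) <;> simp at h
      rw [h2, h1]
      simp
    · rw [if_neg hv, zero_add]
      congr 1
      ext w
      simp only [Set.mem_union, Set.mem_ofPred_eq]
      constructor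
      · intro h
        cases w with
        | nil =>
          exfalso
          apply hv
          rw [vzero]
          exact ⟨by simpa using (h 0).symm, by simpa using (h 1).symm⟩
        | cons b w =>
          fin_cases b
          · left; exact ⟨h, rfl⟩
          · right; exact ⟨h, rfl⟩
      · rintro (h | h) <;> exact h.1
  · rw [Set.disjoint_left]
    rintro w ⟨_, h1⟩ ⟨_, h2⟩
    rw [h1] at h2
    simp at h2

/-- the words counted in the complement: `tt n` words for every vector `(2 n, 3 n)` -/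
lemma exists_language {T : MvPowerSeries (Fin 2) ℕ}
    (hT : ∀ v, coeff v T ≤ coeff v (charSeries (Set.univ : Set (List (Fin 2))))) :
    ∃ L : Set (List (Fin 2)), charSeries L = T := by
  classical
  have h1 : ∀ v : Fin 2 →₀ ℕ, ∃ C : Finset (List (Fin 2)),
      C ⊆ (W_finite v).toFinset ∧ C.card = coeff v T := by
    intro v
    refine Finset.exists_subset_card_eq ?_
    have := hT v
    rwa [coeff_univ, Set.ncard_eq_toFinset_card _ (W_finite v)] at this
  choose C hC1 hC2 using h1
  let pk : List (Fin 2) → (Fin 2 →₀ ℕ) := fun w =>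
    Finsupp.equivFunOnFinite.symm (fun a => w.count a)
  have hpk : ∀ w v, (∀ a, w.count a = v a) ↔ pk w = v := by
    intro w v
    constructor
    · intro h; ext a; simpa [pk] using h a
    · rintro rfl a; simp [pk]
  refine ⟨{w | w ∈ C (pk w)}, ?_⟩
  ext v
  rw [coeff_char, ← hC2 v, ← Set.ncard_coe_finset]
  congr 1
  ext w
  simp only [Set.mem_ofPred_eq, Finset.mem_coe]
  constructor
  · rintro ⟨h2, h3⟩
    rw [hpk] at h3
    rwa [h3] at h2
  · intro h2
    have h3 : w ∈ W v := by simpa using hC1 v h2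
    have h4 : pk w = v := (hpk w v).1 h3
    exact ⟨by rw [h4]; exact h2, h3⟩

/-- Full answer (yes) to Q1: there are a finite alphabet and a language `L` such that the
characteristic series of `L` is rational but that of its complement is not. -/
theorem result : ∃ (k : ℕ) (L : Set (List (Fin k))),
    IsRat (charSeries L) ∧ ¬ IsRat (charSeries Lᶜ) := by
  classical
  set s : MvPowerSeries (Fin 2) ℕ := X 0 + X 1 with hs
  have hsr : IsRat s := .add (isRat_X _) (isRat_X _)
  have hs0 : constantCoeff s = 0 := by simp [hs]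
  set G : MvPowerSeries (Fin 2) ℕ := charSeries Set.univ with hG
  have hGe : G = 1 + s * G := univ_eq
  -- the star of `s ^ 5`
  have hs5 : constantCoeff (s ^ 5) = 0 := by rw [map_pow, hs0]; simp
  set H := starS (s ^ 5) with hH
  have hHr : IsRat H := .star (isRat_pow hsr 5) hs5
  have hHe : H = 1 + s ^ 5 * H := starS_eq hs5
  have hGH : G = (1 + (s + s ^ 2 + s ^ 3 + s ^ 4)) * H := by
    refine unique_sol hs0 hGe ?_
    have : 1 + s * ((1 + (s + s ^ 2 + s ^ 3 + s ^ 4)) * H) =
        (1 + s ^ 5 * H) + (s + s ^ 2 + s ^ 3 + s ^ 4) * H := by ring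
    rw [this, ← hHe]; ring
  -- `s ^ 5 = 10 x + R`
  set a : MvPowerSeries (Fin 2) ℕ := X 0 with ha
  set b : MvPowerSeries (Fin 2) ℕ := X 1 with hb
  have har : IsRat a := isRat_X _
  have hbr : IsRat b := isRat_X _
  set R : MvPowerSeries (Fin 2) ℕ := a ^ 5 + ((5 : ℕ) : MvPowerSeries (Fin 2) ℕ) * (a ^ 4 * b) +
    ((10 : ℕ) : MvPowerSeries (Fin 2) ℕ) * (a ^ 3 * b ^ 2) +
    ((5 : ℕ) : MvPowerSeries (Fin 2) ℕ) * (a * b ^ 4) + b ^ 5 with hR
  have hRr : IsRat R := by
    refine .add (.add (.add (.add (isRat_pow har _) ?_) ?_) ?_) (isRat_pow hbr _)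
    · exact .mul (isRat_natCast _) (.mul (isRat_pow har _) hbr)
    · exact .mul (isRat_natCast _) (.mul (isRat_pow har _) (isRat_pow hbr _))
    · exact .mul (isRat_natCast _) (.mul har (isRat_pow hbr _))
  have hsR : s ^ 5 = 10 * xx + R := by
    rw [hR, hs, xx]
    push_cast
    ring
  -- the star of `10 x`
  set E := P (sN 0) with hE
  have hEe : E = 1 + (10 * xx) * E := E_eq
  have h10 : constantCoeff (10 * xx) = 0 := by rw [map_mul, cc_xx, mul_zero]
  have hHE : H = E + E * R * H := by
    refine unique_sol (c := 1 + R * H) h10 ?_ ?_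
    · conv_lhs => rw [hHe, hsR]
      ring
    · have : 1 + R * H + 10 * xx * (E + E * R * H) = (1 + 10 * xx * E) * (1 + R * H) := by ring
      rw [this, ← hEe]; ring
  have hEr : IsRat E := isRat_seq 0
  -- the complement
  have hfull : G = (((s + s ^ 2 + s ^ 3 + s ^ 4) * H + E * R * H) + P (sN 1)) + P tt := by
    have h1 : G = H + (s + s ^ 2 + s ^ 3 + s ^ 4) * H := by rw [hGH]; ring
    have h2 : H = P tt + P (sN 1) + E * R * H := by
      rw [← split0]; exact hHE
    calc G = H + (s + s ^ 2 + s ^ 3 + s ^ 4) * H := h1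
      _ = (P tt + P (sN 1) + E * R * H) + (s + s ^ 2 + s ^ 3 + s ^ 4) * H := by rw [← h2]
      _ = _ := by ring
  obtain ⟨L', hL'⟩ := exists_language (T := P tt) (by
    intro v
    rw [← hG, hfull, map_add]
    exact Nat.le_add_left _ _)
  refine ⟨2, L'ᶜ, ?_, ?_⟩
  · have h1 : charSeries L'ᶜ = ((s + s ^ 2 + s ^ 3 + s ^ 4) * H + E * R * H) + P (sN 1) := by
      have h2 := char_add L'ᶜ
      rw [compl_compl, hL', ← hG, hfull] at h2
      ext v
      have h3 := congrArg (coeff v) h2
      rw [map_add, map_add _ _ (P tt)] at h3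
      exact Nat.add_right_cancel h3
    rw [h1]
    refine .add (.add (.mul ?_ hHr) (.mul (.mul hEr hRr) hHr)) (isRat_seq 1)
    exact .add (.add (.add hsr (isRat_pow hsr 2)) (isRat_pow hsr 3)) (isRat_pow hsr 4)
  · rw [compl_compl, hL']
    exact not_rat

end Pool.Agent.Results.MP_2e66a2_lc.ComplementNotRational
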